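import Pool.Agent.J6H60.FV.Stm

/-!
# Lower bound for a determinant of a perturbation of the identity, weighted form
-/

set_option autoImplicit false

namespace Pool.Agent.J6H81.FV.DL2

open Pool.Agent.W716.FV Pool.Agent.J6H60.FV

/-- the quadratic factor of the derivative -/
noncomputable def Q (y : ℝ) : ℝ := 1 / 20 - 47 / 1000 * y - 527 / 5000 * y ^ 2

lemma Q_rel (x y : ℝ) : x * Q y - y * Q x = (x - y) * (1 / 20 + 527 / 5000 * (x * y)) := by
  unfold Q; ring

/-- the auxiliary function -/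
noncomputable def h (y : ℝ) : ℝ := Real.log (1 - y) + y + 21 / 40 * (y ^ 2 / (1 - 17 / 25 * y))

lemma h_deriv {y : ℝ} (hy : y < 1) :
    HasDerivAt h (y * Q y / ((1 - y) * (1 - 17 / 25 * y) ^ 2)) y := by
  have h1 : HasDerivAt (fun y : ℝ => 1 - y) (-1) y := by
    simpa using (hasDerivAt_id y).const_sub 1
  have h0 : (1 : ℝ) - y ≠ 0 := by linarith
  have h0' : (1 : ℝ) - 17 / 25 * y ≠ 0 := by
    have : 0 < 1 - 17 / 25 * y := by linarith
    exact this.ne'
  have h2 : HasDerivAt (fun y : ℝ => 1 - 17 / 25 * y) (-(17 / 25)) y := by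
    simpa using ((hasDerivAt_id y).const_mul (17 / 25 : ℝ)).const_sub 1
  have h3 := (h1.log h0).add (hasDerivAt_id y)
  have h4 := h3.add (((hasDerivAt_pow 2 y).div h2 h0').const_mul (21 / 40 : ℝ))
  refine h4.congr_deriv ?_
  have e1 : -1 / (1 - y) + 1 = -y / (1 - y) := by
    field_simp
    ring
  have e2 : (2 : ℕ) * y ^ (2 - 1) * (1 - 17 / 25 * y) - y ^ 2 * -(17 / 25) =
      y * (2 - 17 / 25 * y) := by
    norm_num
    ring
  rw [e1, e2, div_add' _ _ _ h0, div_eq_div_iff h0 (mul_ne_zero h0 (pow_ne_zero 2 h0'))]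
  have e3 : 21 / 40 * (y * (2 - 17 / 25 * y) / (1 - 17 / 25 * y) ^ 2) =
      21 / 40 * (y * (2 - 17 / 25 * y)) / (1 - 17 / 25 * y) ^ 2 := by ring
  have e4 : (21 / 40 * (y * (2 - 17 / 25 * y)) / (1 - 17 / 25 * y) ^ 2) *
      (1 - 17 / 25 * y) ^ 2 = 21 / 40 * (y * (2 - 17 / 25 * y)) :=
    div_mul_cancel₀ _ (pow_ne_zero 2 h0')
  rw [e3]
  generalize 21 / 40 * (y * (2 - 17 / 25 * y)) / (1 - 17 / 25 * y) ^ 2 = w at e4
  have e5 : (-y + w * (1 - y)) * ((1 - y) * (1 - 17 / 25 * y) ^ 2) =
      (-y * (1 - 17 / 25 * y) ^ 2 + (w * (1 - 17 / 25 * y) ^ 2) * (1 - y)) * (1 - y) := by ring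
  rw [e5, e4]
  unfold Q
  ring

lemma h_zero : h 0 = 0 := by simp [h]

lemma h_cont : ContinuousOn h (Set.Iio 1) := fun _ hy =>
  (h_deriv hy).continuousAt.continuousWithinAt

lemma h_mono {s t : ℝ} (ht : t < 1) (hst : s ≤ t) (hn : ∀ y, s < y → y < t → 0 ≤ y * Q y) :
    h s ≤ h t := by
  have hm : MonotoneOn h (Set.Icc s t) := by
    apply monotoneOn_of_deriv_nonneg (convex_Icc _ _)
    · exact h_cont.mono fun y hy => lt_of_le_of_lt hy.2 ht
    · intro y hy
      rw [interior_Icc] at hy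
      exact (h_deriv (hy.2.trans ht)).differentiableAt.differentiableWithinAt
    · intro y hy
      rw [interior_Icc] at hy
      have hy1 : y < 1 := hy.2.trans ht
      rw [(h_deriv hy1).deriv]
      refine div_nonneg (hn y hy.1 hy.2) ?_
      have : 0 < 1 - y := by linarith
      positivity
  exact hm ⟨le_rfl, hst⟩ ⟨hst, le_rfl⟩ hst

lemma h_anti {s t : ℝ} (ht : t < 1) (hst : s ≤ t) (hn : ∀ y, s < y → y < t → y * Q y ≤ 0) :
    h t ≤ h s := by
  have hm : AntitoneOn h (Set.Icc s t) := by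
    apply antitoneOn_of_deriv_nonpos (convex_Icc _ _)
    · exact h_cont.mono fun y hy => lt_of_le_of_lt hy.2 ht
    · intro y hy
      rw [interior_Icc] at hy
      exact (h_deriv (hy.2.trans ht)).differentiableAt.differentiableWithinAt
    · intro y hy
      rw [interior_Icc] at hy
      have hy1 : y < 1 := hy.2.trans ht
      rw [(h_deriv hy1).deriv]
      refine div_nonpos_of_nonpos_of_nonneg (hn y hy.1 hy.2) ?_
      have : 0 < 1 - y := by linarith
      positivity
  exact hm ⟨le_rfl, hst⟩ ⟨hst, le_rfl⟩ hst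

lemma h_right : 0 ≤ h (3 / 5) := by
  unfold h
  have h8 : -(919 / 1000 : ℝ) ≤ Real.log (1 - 3 / 5) := by
    rw [Real.le_log_iff_exp_le (by norm_num), Real.exp_neg]
    have h9 : (5 / 2 : ℝ) ≤ Real.exp (919 / 1000) := by
      have h10 := Real.sum_le_exp_of_nonneg (show (0 : ℝ) ≤ 919 / 1000 by norm_num) 6
      refine le_trans ?_ h10
      simp only [Finset.sum_range_succ, Finset.sum_range_zero, Nat.factorial]
      norm_num
    calc (Real.exp (919 / 1000))⁻¹ ≤ (5 / 2 : ℝ)⁻¹ := inv_anti₀ (by norm_num) h9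
      _ = 1 - 3 / 5 := by norm_num
  norm_num at h8 ⊢
  linarith

lemma h_left : 0 ≤ h (-(6 / 5)) := by
  unfold h
  have h1 : (1 : ℝ) - -(6 / 5) = 2 * (11 / 10) := by norm_num
  rw [h1, Real.log_mul (by norm_num) (by norm_num)]
  have h2 := Real.log_two_gt_d9
  have h3 := Real.one_sub_inv_le_log_of_pos (show (0 : ℝ) < 11 / 10 by norm_num)
  norm_num at h2 h3 ⊢
  linarith

lemma h_nonneg {x : ℝ} (h1 : -(6 / 5) ≤ x) (h2 : x ≤ 3 / 5) : 0 ≤ h x := by
  rcases lt_trichotomy x 0 with hx | hx | hx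
  · rcases le_or_gt 0 (Q x) with hq | hq
    · rw [← h_zero]
      refine h_anti (by norm_num) hx.le fun y hy1 hy2 => ?_
      have hr := Q_rel x y
      have h3 : 0 < x * y := mul_pos_of_neg_of_neg hx hy2
      have h4 : (x - y) * (1 / 20 + 527 / 5000 * (x * y)) ≤ 0 :=
        mul_nonpos_of_nonpos_of_nonneg (by linarith) (by linarith)
      have h5 : y * Q x ≤ 0 := mul_nonpos_of_nonpos_of_nonneg hy2.le hq
      have h6 : 0 ≤ Q y := by
        by_contra hc
        push Not at hc
        have := mul_pos_of_neg_of_neg hx hc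
        linarith
      exact mul_nonpos_of_nonpos_of_nonneg hy2.le h6
    · refine h_left.trans (h_mono (by linarith) h1 fun y hy1 hy2 => ?_)
      have hr := Q_rel x y
      have hy0 : y < 0 := hy2.trans hx
      have h3 : 0 < x * y := mul_pos_of_neg_of_neg hx hy0
      have h4 : 0 ≤ (x - y) * (1 / 20 + 527 / 5000 * (x * y)) :=
        mul_nonneg (by linarith) (by linarith)
      have h5 : 0 < y * Q x := mul_pos_of_neg_of_neg hy0 hq
      have h6 : Q y ≤ 0 := by
        by_contra hc
        push Not at hc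
        have := mul_neg_of_neg_of_pos hx hc
        linarith
      exact mul_nonneg_of_nonpos_of_nonpos hy0.le h6
  · rw [hx, h_zero]
  · rcases le_or_gt 0 (Q x) with hq | hq
    · rw [← h_zero]
      refine h_mono (by linarith) hx.le fun y hy1 hy2 => ?_
      have hr := Q_rel x y
      have h3 : 0 < x * y := mul_pos hx hy1
      have h4 : 0 ≤ (x - y) * (1 / 20 + 527 / 5000 * (x * y)) :=
        mul_nonneg (by linarith) (by linarith)
      have h5 : 0 ≤ y * Q x := mul_nonneg hy1.le hq
      have h6 : 0 ≤ Q y := by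
        by_contra hc
        push Not at hc
        have := mul_neg_of_pos_of_neg hx hc
        linarith
      exact mul_nonneg hy1.le h6
    · refine h_right.trans (h_anti (by norm_num) h2 fun y hy1 hy2 => ?_)
      have hr := Q_rel x y
      have hy0 : 0 < y := hx.trans hy1
      have h3 : 0 < x * y := mul_pos hx hy0
      have h4 : (x - y) * (1 / 20 + 527 / 5000 * (x * y)) ≤ 0 :=
        mul_nonpos_of_nonpos_of_nonneg (by linarith) (by linarith)
      have h5 : y * Q x < 0 := mul_neg_of_pos_of_neg hy0 hq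
      have h6 : Q y ≤ 0 := by
        by_contra hc
        push Not at hc
        have := mul_pos hx hc
        linarith
      exact mul_nonpos_of_nonneg_of_nonpos hy0.le h6

theorem exp_ineq {x : ℝ} (h1 : -(6 / 5) ≤ x) (h2 : x ≤ 3 / 5) :
    Real.exp (-x - 21 / 40 * (x ^ 2 / (1 - 17 / 25 * x))) ≤ 1 - x := by
  have h3 := h_nonneg h1 h2
  unfold h at h3
  rw [← Real.le_log_iff_exp_le (by linarith)]
  linarith

theorem main : DetLower2 := by
  intro n A hA S hS hyp
  set T : E n →ₗ[ℝ] E n := (A : E n →ₗ[ℝ] E n) with hTdef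
  have hT : T.IsSymmetric := by
    intro v w
    have h := hA v w
    rw [real_inner_comm] at h
    rw [real_inner_comm] at h
    exact h.trans (real_inner_comm _ _)
  have hn : Module.finrank ℝ (E n) = n := by simp
  set ev := hT.eigenvalues hn with hev
  set b := hT.eigenvectorBasis hn with hb
  have hdiag : ∀ i, (inner ℝ (A (b i)) (b i) : ℝ) = ev i := by
    intro i
    have h1 : A (b i) = T (b i) := rfl
    rw [h1, hT.apply_eigenvectorBasis hn i, inner_smul_left, real_inner_self_eq_norm_sq,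
      (hT.eigenvectorBasis hn).norm_eq_one]
    simp [hev]
  have htr : LinearMap.trace ℝ (E n) T = ∑ i, ev i := by
    have := hT.trace_eq_sum_eigenvalues hn
    simpa using this
  have hdet : (A - ContinuousLinearMap.id ℝ (E n)).det = ∏ i, (ev i - 1) := by
    rw [ContinuousLinearMap.det]
    have h1 : ((A - ContinuousLinearMap.id ℝ (E n) : E n →L[ℝ] E n) : E n →ₗ[ℝ] E n) =
        T - LinearMap.id := by
      ext v; simp [hTdef]
    rw [h1, ← LinearMap.det_toMatrix b.toBasis, map_sub, LinearMap.toMatrix_id,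
      hT.toMatrix_eigenvectorBasis hn]
    rw [← Matrix.diagonal_one, Matrix.diagonal_sub, Matrix.det_diagonal]
    rfl
  obtain ⟨hle, hsum⟩ := hyp b (fun i => ev i / (1 - 17 / 25 * ev i))
  simp only [hdiag] at hle hsum
  have hpos : ∀ i, 0 < 1 - 17 / 25 * ev i := fun i => by
    have := hle i
    linarith
  have hsum' : ∑ i, ev i ^ 2 / (1 - 17 / 25 * ev i) ≤ 4 / 3 * S := by
    refine le_trans (le_of_eq (Finset.sum_congr rfl fun i _ => ?_)) hsum
    have := (hpos i).ne'
    field_simp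
    ring
  have hterm : ∀ i, ev i ^ 2 / (1 - 17 / 25 * ev i) ≤ 59 / 75 := by
    intro i
    have h1 := Finset.single_le_sum (f := fun i => ev i ^ 2 / (1 - 17 / 25 * ev i))
      (fun j _ => div_nonneg (sq_nonneg _) (hpos j).le) (Finset.mem_univ i)
    have h2 : ev i ^ 2 / (1 - 17 / 25 * ev i) ≤ 4 / 3 * S := h1.trans hsum'
    linarith
  have hlow : ∀ i, -(6 / 5) ≤ ev i := by
    intro i
    have h1 := hterm i
    rw [div_le_iff₀ (hpos i)] at h1
    by_contra hc
    push Not at hc
    nlinarith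
  rw [htr, hdet, Finset.abs_prod]
  have h1 : Real.exp (-(∑ i, ev i) - 7 / 10 * S) ≤
      Real.exp (∑ i, (-ev i - 21 / 40 * (ev i ^ 2 / (1 - 17 / 25 * ev i)))) := by
    refine Real.exp_le_exp.2 ?_
    rw [Finset.sum_sub_distrib, Finset.sum_neg_distrib, ← Finset.mul_sum]
    linarith
  refine h1.trans ?_
  rw [Real.exp_sum]
  refine Finset.prod_le_prod (fun i _ => (Real.exp_pos _).le) (fun i _ => ?_)
  refine (exp_ineq (hlow i) ((hle i).trans (by linarith))).trans ?_
  rw [abs_sub_comm]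
  exact le_abs_self _

end Pool.Agent.J6H81.FV.DL2
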